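import Pool.Agent.Helper12.GM.Stmts

set_option autoImplicit false

/-! # HIT: the hitting probability is the quotient of Green functions -/

open scoped ENNReal
open MeasureTheory

namespace Pool.Agent.Helper12.GM

variable {Γ : Type} [Group Γ]

/-! ### analytic part -/

open Classical in
/-- probability of hitting `g` from `x` in at most `n` steps -/
noncomputable def hit_h (μ : PMF Γ) (g : Γ) : ℕ → Γ → ℝ≥0∞
  | 0, x => if x = g then 1 else 0
  | n + 1, x => if x = g then 1 else ∑' s, μ s * hit_h μ g n (x * s)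

theorem hit_pw_inv (μ : PMF Γ) (h : Γ) (n : ℕ) (x y : Γ) :
    pw μ Set.univ n (h * x) (h * y) = pw μ Set.univ n x y := by
  induction n generalizing x with
  | zero =>
    unfold pw
    by_cases hxy : x = y
    · rw [if_pos hxy, if_pos (by rw [hxy])]
    · rw [if_neg hxy, if_neg (fun h2 => hxy (mul_left_cancel h2))]
  | succ n ih =>
    simp only [pw, Set.mem_univ, if_true]
    refine tsum_congr (fun s => ?_)
    rw [mul_assoc, ih]

theorem hit_Gr_inv (μ : PMF Γ) (h x y : Γ) :
    Gr μ Set.univ (h * x) (h * y) = Gr μ Set.univ x y :=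
  tsum_congr (fun n => hit_pw_inv μ h n x y)

open Classical in
theorem hit_first (μ : PMF Γ) (x y : Γ) : Gr μ Set.univ x y =
    (if x = y then 1 else 0) + ∑' s, μ s * Gr μ Set.univ (x * s) y := by
  unfold Gr
  rw [tsum_eq_zero_add' ENNReal.summable]
  congr 1
  simp only [pw, Set.mem_univ, if_true]
  rw [ENNReal.tsum_comm]
  exact tsum_congr (fun s => ENNReal.tsum_mul_left)

open Classical in
theorem hit_part (μ : PMF Γ) (n : ℕ) (x y : Γ) :
    ∑ m ∈ Finset.range (n + 2), pw μ Set.univ m x y = (if x = y then 1 else 0) +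
      ∑' s, μ s * ∑ m ∈ Finset.range (n + 1), pw μ Set.univ m (x * s) y := by
  rw [Finset.sum_range_succ' _ (n + 1), add_comm]
  congr 1
  simp only [pw, Set.mem_univ, if_true]
  rw [← Summable.tsum_finsetSum (fun _ _ => ENNReal.summable)]
  refine tsum_congr (fun s => ?_)
  rw [Finset.mul_sum]

theorem hit_self (μ : PMF Γ) (g : Γ) (n : ℕ) : hit_h μ g n g = 1 := by
  cases n <;> simp [hit_h]

theorem hit_one_le (μ : PMF Γ) (g : Γ) : 1 ≤ Gr μ Set.univ g g := by
  rw [hit_first, if_pos rfl]
  exact le_self_add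

theorem hit_upper (μ : PMF Γ) (g : Γ) (n : ℕ) (x : Γ) :
    ∑ m ∈ Finset.range (n + 1), pw μ Set.univ m x g ≤ hit_h μ g n x * Gr μ Set.univ g g := by
  induction n generalizing x with
  | zero =>
    by_cases h : x = g
    · simpa [pw, hit_h, h] using hit_one_le μ g
    · simp [pw, hit_h, h]
  | succ n ih =>
    by_cases h : x = g
    · subst h
      rw [hit_self, one_mul]
      exact ENNReal.sum_le_tsum _
    · rw [hit_part, if_neg h, zero_add]
      simp only [hit_h, if_neg h]
      rw [← ENNReal.tsum_mul_right]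
      refine ENNReal.tsum_le_tsum (fun s => ?_)
      rw [mul_assoc]
      exact mul_le_mul_right (ih (x * s)) _

theorem hit_lower (μ : PMF Γ) (g : Γ) (n : ℕ) (x : Γ) :
    hit_h μ g n x * Gr μ Set.univ g g ≤ Gr μ Set.univ x g := by
  induction n generalizing x with
  | zero =>
    by_cases h : x = g
    · simp [hit_h, h]
    · simp [hit_h, h]
  | succ n ih =>
    by_cases h : x = g
    · subst h
      rw [hit_self, one_mul]
    · rw [hit_first μ x g, if_neg h, zero_add]
      simp only [hit_h, if_neg h]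
      rw [← ENNReal.tsum_mul_right]
      refine ENNReal.tsum_le_tsum (fun s => ?_)
      rw [mul_assoc]
      exact mul_le_mul_right (ih (x * s)) _

theorem hit_eq (μ : PMF Γ) (g x : Γ) :
    (⨆ n, hit_h μ g n x) * Gr μ Set.univ g g = Gr μ Set.univ x g := by
  apply le_antisymm
  · rw [ENNReal.iSup_mul]
    exact iSup_le (fun n => hit_lower μ g n x)
  · conv_lhs => rw [Gr, ENNReal.tsum_eq_iSup_nat]
    refine iSup_le (fun n => ?_)
    refine (Finset.sum_le_sum_of_subset (Finset.range_subset_range.2 (Nat.le_succ n))).trans ?_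
    exact (hit_upper μ g n x).trans (mul_le_mul_left (le_iSup (fun n => hit_h μ g n x) n) _)

/-! ### the probability space -/

/-- put a letter in front of a sequence -/
def hit_cons (p : Γ × (ℕ → Γ)) : ℕ → Γ
  | 0 => p.1
  | n + 1 => p.2 n

theorem hit_wpos (s : Γ) (ω : ℕ → Γ) (n : ℕ) :
    wpos (hit_cons (s, ω)) (n + 1) = s * wpos ω n := by
  induction n with
  | zero => simp [wpos, hit_cons]
  | succ n ih =>
    rw [wpos, ih, wpos, mul_assoc]
    rfl

section

variable [MeasurableSpace Γ] [DiscreteMeasurableSpace Γ] [Countable Γ]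

omit [Group Γ] [DiscreteMeasurableSpace Γ] [Countable Γ] in
theorem hit_meas_cons : Measurable (hit_cons : Γ × (ℕ → Γ) → ℕ → Γ) := by
  refine measurable_pi_iff.2 (fun n => ?_)
  cases n with
  | zero => exact measurable_fst
  | succ n => exact (measurable_pi_apply n).comp measurable_snd

theorem hit_map (μ : PMF Γ) :
    (μ.toMeasure.prod (Measure.infinitePi fun _ : ℕ => μ.toMeasure)).map hit_cons =
      Measure.infinitePi fun _ : ℕ => μ.toMeasure := by
  classical
  apply Measure.eq_infinitePi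
  intro s t ht
  rw [Measure.map_apply hit_meas_cons (MeasurableSet.pi s.countable_toSet (fun i _ => ht i))]
  set s' : Finset ℕ := s.preimage Nat.succ (Nat.succ_injective.injOn) with hs'
  have hmem : ∀ n, n ∈ s' ↔ n + 1 ∈ s := fun n => by rw [hs', Finset.mem_preimage]
  have hpre : (hit_cons : Γ × (ℕ → Γ) → ℕ → Γ) ⁻¹' (Set.pi s t) =
      (if 0 ∈ s then t 0 else Set.univ) ×ˢ Set.pi (s' : Set ℕ) (fun n => t (n + 1)) := by
    ext ⟨a, ω⟩
    rw [Set.mem_preimage, Set.mem_pi, Set.mem_prod, Set.mem_pi]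
    constructor
    · intro h
      refine ⟨?_, fun n hn => h (n + 1) (Finset.mem_coe.2 ((hmem n).1 (Finset.mem_coe.1 hn)))⟩
      by_cases h0 : 0 ∈ s
      · rw [if_pos h0]; exact h 0 (Finset.mem_coe.2 h0)
      · rw [if_neg h0]; trivial
    · rintro ⟨h1, h2⟩ n hn
      cases n with
      | zero =>
        rw [if_pos (Finset.mem_coe.1 hn)] at h1
        exact h1
      | succ n => exact h2 n (Finset.mem_coe.2 ((hmem n).2 (Finset.mem_coe.1 hn)))
  have herase : s.erase 0 = s'.image Nat.succ := by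
    ext n
    rw [Finset.mem_erase, Finset.mem_image]
    constructor
    · rintro ⟨h0, h1⟩
      obtain ⟨m, rfl⟩ := Nat.exists_eq_succ_of_ne_zero h0
      exact ⟨m, (hmem m).2 h1, rfl⟩
    · rintro ⟨m, hm, rfl⟩
      exact ⟨Nat.succ_ne_zero m, (hmem m).1 hm⟩
  rw [hpre, Measure.prod_prod, Measure.infinitePi_pi _ (fun i _ => ht (i + 1))]
  have h1 : ∏ i ∈ s', μ.toMeasure (t (i + 1)) = ∏ i ∈ s.erase 0, μ.toMeasure (t i) := by
    rw [herase, Finset.prod_image (fun a _ b _ h => Nat.succ_injective h)]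
  rw [h1]
  by_cases h0 : 0 ∈ s
  · rw [if_pos h0, Finset.mul_prod_erase s (fun i => μ.toMeasure (t i)) h0]
  · rw [if_neg h0, measure_univ, one_mul, Finset.erase_eq_of_notMem h0]

theorem hit_meas_wpos (n : ℕ) : Measurable (fun ω : ℕ → Γ => wpos ω n) := by
  induction n with
  | zero => exact measurable_const
  | succ n ih =>
    exact (measurable_of_countable (fun p : Γ × Γ => p.1 * p.2)).comp
      (ih.prodMk (measurable_pi_apply n))

/-- the event of hitting `g` from `x` in at most `n` steps -/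
def hit_E (g : Γ) (n : ℕ) (x : Γ) : Set (ℕ → Γ) := {ω | ∃ k ≤ n, x * wpos ω k = g}

theorem hit_meas_E (g : Γ) (n : ℕ) (x : Γ) : MeasurableSet (hit_E g n x) := by
  have : hit_E g n x = ⋃ k : Fin (n + 1), (fun ω : ℕ → Γ => wpos ω k) ⁻¹' {y | x * y = g} := by
    ext ω
    rw [hit_E, Set.mem_ofPred_eq, Set.mem_iUnion]
    constructor
    · rintro ⟨k, hk, h⟩
      exact ⟨⟨k, Nat.lt_succ_of_le hk⟩, h⟩
    · rintro ⟨k, h⟩
      exact ⟨k, Nat.le_of_lt_succ k.2, h⟩
  rw [this]
  exact MeasurableSet.iUnion fun k => hit_meas_wpos k (MeasurableSet.of_discrete)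

theorem hit_prob (μ : PMF Γ) (g : Γ) (n : ℕ) (x : Γ) :
    (Measure.infinitePi fun _ : ℕ => μ.toMeasure) (hit_E g n x) = hit_h μ g n x := by
  induction n generalizing x with
  | zero =>
    by_cases h : x = g
    · have : hit_E g 0 x = Set.univ := by
        ext ω; simp [hit_E, wpos, h]
      rw [this, measure_univ, h, hit_self]
    · have : hit_E g 0 x = ∅ := by
        ext ω; simp [hit_E, wpos, h]
      rw [this, measure_empty]
      simp [hit_h, h]
  | succ n ih =>
    by_cases h : x = g
    · have : hit_E g (n + 1) x = Set.univ := by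
        ext ω
        simp only [hit_E, Set.mem_ofPred_eq, Set.mem_univ, iff_true]
        exact ⟨0, Nat.zero_le _, by rw [wpos, mul_one, h]⟩
      rw [this, measure_univ, h, hit_self]
    · rw [← hit_map, Measure.map_apply hit_meas_cons (hit_meas_E g (n + 1) x),
        Measure.prod_apply (hit_meas_cons (hit_meas_E g (n + 1) x))]
      have hsl : ∀ s : Γ, Prod.mk s ⁻¹' ((hit_cons : Γ × (ℕ → Γ) → ℕ → Γ) ⁻¹'
          hit_E g (n + 1) x) = hit_E g n (x * s) := by
        intro s
        ext ω
        simp only [Set.mem_preimage, hit_E, Set.mem_ofPred_eq]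
        constructor
        · rintro ⟨k, hk, hk2⟩
          cases k with
          | zero => rw [wpos, mul_one] at hk2; exact absurd hk2 h
          | succ k =>
            rw [hit_wpos, ← mul_assoc] at hk2
            exact ⟨k, Nat.le_of_succ_le_succ hk, hk2⟩
        · rintro ⟨k, hk, hk2⟩
          exact ⟨k + 1, Nat.succ_le_succ hk, by rw [hit_wpos, ← mul_assoc]; exact hk2⟩
      simp only [hsl, ih]
      rw [lintegral_countable']
      simp only [hit_h, if_neg h]
      refine tsum_congr (fun s => ?_)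
      rw [PMF.toMeasure_apply_singleton _ _ (measurableSet_singleton s), mul_comm]

theorem hit_law (μ : PMF Γ) (g : Γ) :
    (Measure.infinitePi fun _ : ℕ => μ.toMeasure) {ω | ∃ n, wpos ω n = g} =
      ⨆ n, hit_h μ g n 1 := by
  have h1 : {ω : ℕ → Γ | ∃ n, wpos ω n = g} = ⋃ n, hit_E g n 1 := by
    ext ω
    simp only [Set.mem_ofPred_eq, Set.mem_iUnion, hit_E, one_mul]
    constructor
    · rintro ⟨n, hn⟩; exact ⟨n, n, le_rfl, hn⟩
    · rintro ⟨n, k, -, hk⟩; exact ⟨k, hk⟩
  have hmono : Monotone fun n => hit_E g n (1 : Γ) := by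
    intro m n hmn ω
    rintro ⟨k, hk, h⟩
    exact ⟨k, hk.trans hmn, h⟩
  rw [h1, hmono.measure_iUnion]
  exact iSup_congr (fun n => hit_prob μ g n 1)

end

theorem st_HIT : ST_HIT := by
  intro Γ _ _ μ _ hG g
  let _ : MeasurableSpace Γ := ⊤
  haveI : DiscreteMeasurableSpace Γ := ⟨fun _ => trivial⟩
  have h1 : law μ {ω | ∃ n, wpos ω n = g} = ⨆ n, hit_h μ g n 1 := hit_law μ g
  have h2 := hit_eq μ g 1
  have h3 : Gr μ Set.univ g g = Gr μ Set.univ 1 1 := by
    have := hit_Gr_inv μ g 1 1
    rwa [mul_one] at this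
  have h4 : Gr μ Set.univ (1 : Γ) 1 ≠ 0 := fun h => by
    have := hit_one_le μ (1 : Γ)
    rw [h] at this
    exact absurd this (by simp)
  rw [h3] at h2
  rw [Fh, h1, ← h2, ENNReal.mul_div_cancel_right h4 hG]

end Pool.Agent.Helper12.GM
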