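import Pool.Agent.Helper12.GM.Stmts

set_option autoImplicit false

/-! # GAPA: a paradoxical set gives a spectral gap -/

namespace Pool.Agent.Helper12.GM

variable {Γ : Type} [Group Γ]

theorem gapa_sum (f : Γ →₀ ℝ) (w : Γ) (F : Γ → ℝ)
    (h : ∀ x, f x = 0 → f (x * w) = 0 → F x = 0) : Summable F := by
  classical
  refine summable_of_finite_support
    ((f.support ∪ f.support.image (fun x => x * w⁻¹)).finite_toSet.subset ?_)
  intro x hx
  by_contra hn
  rw [Finset.mem_coe, Finset.mem_union, not_or, Finsupp.mem_support_iff, not_not,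
    Finset.mem_image] at hn
  refine hx (h x hn.1 ?_)
  by_contra h2
  exact hn.2 ⟨x * w, Finsupp.mem_support_iff.2 h2, by group⟩

/-- squared norm of the difference -/
noncomputable def gapa_D (f : Γ →₀ ℝ) (w : Γ) : ℝ := ∑' x, (f (x * w) - f x) ^ 2

/-- squared norm -/
noncomputable def gapa_N (f : Γ →₀ ℝ) : ℝ := ∑' x, (f x) ^ 2

theorem gapa_Dnn (f : Γ →₀ ℝ) (w : Γ) : 0 ≤ gapa_D f w := tsum_nonneg fun _ => sq_nonneg _

theorem gapa_Nnn (f : Γ →₀ ℝ) : 0 ≤ gapa_N f := tsum_nonneg fun _ => sq_nonneg _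

theorem gapa_Ds (f : Γ →₀ ℝ) (w : Γ) : Summable fun x => (f (x * w) - f x) ^ 2 :=
  gapa_sum f w _ fun x h1 h2 => by rw [h1, h2]; simp

theorem gapa_Ns (f : Γ →₀ ℝ) : Summable fun x => (f x) ^ 2 :=
  gapa_sum f 1 _ fun x h1 _ => by rw [h1]; simp

theorem gapa_one (f : Γ →₀ ℝ) : gapa_D f 1 = 0 := by
  unfold gapa_D
  simp

theorem gapa_inv (f : Γ →₀ ℝ) (w : Γ) : gapa_D f w⁻¹ = gapa_D f w := by
  unfold gapa_D
  rw [← (Equiv.mulRight w).tsum_eq (fun x => (f (x * w⁻¹) - f x) ^ 2)]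
  refine tsum_congr (fun x => ?_)
  simp only [Equiv.coe_mulRight, mul_inv_cancel_right]
  ring

theorem gapa_mul (f : Γ →₀ ℝ) (w s : Γ) :
    gapa_D f (w * s) ≤ 2 * gapa_D f w + 2 * gapa_D f s := by
  have h1 : gapa_D f s = ∑' x, (f (x * w * s) - f (x * w)) ^ 2 := by
    unfold gapa_D
    rw [← (Equiv.mulRight w).tsum_eq (fun x => (f (x * s) - f x) ^ 2)]
    rfl
  have h2 : Summable fun x => (f (x * w * s) - f (x * w)) ^ 2 :=
    (Equiv.mulRight w).summable_iff (f := fun x => (f (x * s) - f x) ^ 2) |>.2 (gapa_Ds f s)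
  rw [h1]
  unfold gapa_D
  rw [← tsum_mul_left, ← tsum_mul_left, ← ((gapa_Ds f w).mul_left 2).tsum_add (h2.mul_left 2)]
  refine (gapa_Ds f (w * s)).tsum_le_tsum (fun x => ?_) (((gapa_Ds f w).mul_left 2).add
    (h2.mul_left 2))
  rw [← mul_assoc]
  nlinarith [sq_nonneg ((f (x * w) - f x) - (f (x * w * s) - f (x * w)))]

theorem gapa_word (S : Set Γ) (hS : Subgroup.closure S = ⊤) (w : Γ) :
    ∃ (T : Finset Γ) (C : ℝ), (T : Set Γ) ⊆ S ∧ 0 ≤ C ∧ ∀ (f : Γ →₀ ℝ) (M : ℝ), 0 ≤ M →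
      (∀ s ∈ T, gapa_D f s ≤ M) → gapa_D f w ≤ C * M := by
  classical
  have hw : w ∈ Subgroup.closure S := by rw [hS]; trivial
  induction hw using Subgroup.closure_induction with
  | mem s hs =>
    refine ⟨{s}, 1, by simpa using hs, zero_le_one, fun f M _ h => ?_⟩
    rw [one_mul]
    exact h s (Finset.mem_singleton_self s)
  | one =>
    refine ⟨∅, 0, by simp, le_rfl, fun f M _ _ => ?_⟩
    rw [gapa_one, zero_mul]
  | mul a b _ _ ha hb =>
    obtain ⟨T1, C1, h1, h1', h1''⟩ := ha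
    obtain ⟨T2, C2, h2, h2', h2''⟩ := hb
    refine ⟨T1 ∪ T2, 2 * C1 + 2 * C2, ?_, by positivity, fun f M hM h => ?_⟩
    · rw [Finset.coe_union]
      exact Set.union_subset h1 h2
    · have e1 := h1'' f M hM (fun s hs => h s (Finset.mem_union_left _ hs))
      have e2 := h2'' f M hM (fun s hs => h s (Finset.mem_union_right _ hs))
      have e3 := gapa_mul f a b
      linarith
  | inv a _ ha =>
    obtain ⟨T1, C1, h1, h1', h1''⟩ := ha
    refine ⟨T1, C1, h1, h1', fun f M hM h => ?_⟩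
    rw [gapa_inv]
    exact h1'' f M hM h

/-- the mass of the translated set -/
noncomputable def gapa_m (A : Set Γ) (f : Γ →₀ ℝ) (w : Γ) : ℝ :=
  ∑' x, A.indicator 1 (x * w) * (f x) ^ 2

theorem gapa_chi (A : Set Γ) (x : Γ) : 0 ≤ A.indicator (1 : Γ → ℝ) x ∧
    A.indicator (1 : Γ → ℝ) x ≤ 1 := by
  by_cases h : x ∈ A
  · rw [Set.indicator_of_mem h]; simp
  · rw [Set.indicator_of_notMem h]; simp

theorem gapa_ms (A : Set Γ) (f : Γ →₀ ℝ) (w : Γ) :
    Summable fun x => A.indicator (1 : Γ → ℝ) (x * w) * (f x) ^ 2 :=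
  gapa_sum f 1 _ fun x h1 _ => by rw [h1]; simp

theorem gapa_est (A : Set Γ) (f : Γ →₀ ℝ) (w : Γ) :
    |gapa_m A f 1 - gapa_m A f w| ≤ 18 * gapa_D f w + gapa_N f / 18 := by
  have h1 : gapa_m A f 1 = ∑' x, A.indicator (1 : Γ → ℝ) (x * w) * (f (x * w)) ^ 2 := by
    unfold gapa_m
    rw [← (Equiv.mulRight w).tsum_eq (fun x => A.indicator (1 : Γ → ℝ) (x * 1) * (f x) ^ 2)]
    simp only [Equiv.coe_mulRight, mul_one]
  have h2 : Summable fun x => A.indicator (1 : Γ → ℝ) (x * w) * (f (x * w)) ^ 2 :=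
    gapa_sum f w _ fun x _ h => by rw [h]; simp
  have h3 : Summable fun x => (f (x * w)) ^ 2 := (Equiv.mulRight w).summable_iff.2 (gapa_Ns f)
  have h4 : gapa_N f = ∑' x, (f (x * w)) ^ 2 := by
    unfold gapa_N
    rw [← (Equiv.mulRight w).tsum_eq (fun x => (f x) ^ 2)]
    rfl
  have h5 : 18 * gapa_D f w + gapa_N f / 18 =
      ∑' x, (18 * (f (x * w) - f x) ^ 2 + ((1 / 36) * (f (x * w)) ^ 2 + (1 / 36) * (f x) ^ 2)) := by
    rw [((gapa_Ds f w).mul_left 18).tsum_add ((h3.mul_left _).add ((gapa_Ns f).mul_left _)),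
      (h3.mul_left _).tsum_add ((gapa_Ns f).mul_left _), tsum_mul_left, tsum_mul_left,
      tsum_mul_left, ← h4]
    unfold gapa_D gapa_N
    ring
  have hs5 : Summable fun x => (18 * (f (x * w) - f x) ^ 2 +
      ((1 / 36) * (f (x * w)) ^ 2 + (1 / 36) * (f x) ^ 2)) :=
    ((gapa_Ds f w).mul_left 18).add ((h3.mul_left _).add ((gapa_Ns f).mul_left _))
  have hpt : ∀ x, |A.indicator (1 : Γ → ℝ) (x * w) * (f (x * w)) ^ 2 -
      A.indicator (1 : Γ → ℝ) (x * w) * (f x) ^ 2| ≤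
      18 * (f (x * w) - f x) ^ 2 + ((1 / 36) * (f (x * w)) ^ 2 + (1 / 36) * (f x) ^ 2) := by
    intro x
    obtain ⟨c0, c1⟩ := gapa_chi A (x * w)
    have e1 : |(f (x * w)) ^ 2 - (f x) ^ 2| ≤
        18 * (f (x * w) - f x) ^ 2 + ((1 / 36) * (f (x * w)) ^ 2 + (1 / 36) * (f x) ^ 2) := by
      rw [abs_le]
      constructor
      · nlinarith [sq_nonneg (18 * (f (x * w) - f x) + (f (x * w) + f x) / 2),
          sq_nonneg (f (x * w) - f x)]
      · nlinarith [sq_nonneg (18 * (f (x * w) - f x) - (f (x * w) + f x) / 2),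
          sq_nonneg (f (x * w) - f x)]
    rw [← mul_sub, abs_mul, abs_of_nonneg c0]
    exact (mul_le_of_le_one_left (abs_nonneg _) c1).trans e1
  rw [h5, h1]
  unfold gapa_m
  rw [← h2.tsum_sub (gapa_ms A f w)]
  have hs6 := h2.sub (gapa_ms A f w)
  rw [abs_le]
  constructor
  · rw [← tsum_neg]
    exact hs5.neg.tsum_le_tsum (fun x => (abs_le.1 (hpt x)).1) hs6
  · exact hs6.tsum_le_tsum (fun x => (abs_le.1 (hpt x)).2) hs5

theorem gapa_main (A : Set Γ) (g h : Γ) (hp : ParSet A g h) (f : Γ →₀ ℝ) :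
    gapa_N f ≤ 90 * (gapa_D f g + gapa_D f h + gapa_D f (h * h)) := by
  obtain ⟨hp1, hp2⟩ := hp
  have h1 : gapa_N f ≤ gapa_m A f 1 + gapa_m A f g := by
    unfold gapa_N gapa_m
    rw [← (gapa_ms A f 1).tsum_add (gapa_ms A f g)]
    refine (gapa_Ns f).tsum_le_tsum (fun x => ?_) ((gapa_ms A f 1).add (gapa_ms A f g))
    rw [← add_mul, mul_one]
    refine le_mul_of_one_le_left (sq_nonneg _) ?_
    rcases hp1 x with hx | hx
    · rw [Set.indicator_of_mem hx]
      have := (gapa_chi A (x * g)).1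
      simpa using this
    · rw [Set.indicator_of_mem hx]
      have := (gapa_chi A x).1
      simpa using this
  have h2 : gapa_m A f 1 + (gapa_m A f h + gapa_m A f (h * h)) ≤ gapa_N f := by
    unfold gapa_N gapa_m
    rw [← (gapa_ms A f h).tsum_add (gapa_ms A f (h * h)),
      ← (gapa_ms A f 1).tsum_add ((gapa_ms A f h).add (gapa_ms A f (h * h)))]
    refine ((gapa_ms A f 1).add ((gapa_ms A f h).add (gapa_ms A f (h * h)))).tsum_le_tsum
      (fun x => ?_) (gapa_Ns f)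
    rw [← add_mul, ← add_mul, mul_one]
    refine mul_le_of_le_one_left (sq_nonneg _) ?_
    have e1 := hp2 x
    have e2 := hp2 (x * h)
    rw [← mul_assoc]
    by_cases a1 : x ∈ A
    · obtain ⟨n1, n2⟩ := e1 a1
      rw [Set.indicator_of_mem a1, Set.indicator_of_notMem n1, Set.indicator_of_notMem n2]
      simp
    · by_cases a2 : x * h ∈ A
      · rw [Set.indicator_of_notMem a1, Set.indicator_of_mem a2,
          Set.indicator_of_notMem (e2 a2).1]
        simp
      · rw [Set.indicator_of_notMem a1, Set.indicator_of_notMem a2]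
        have := (gapa_chi A (x * h * h)).2
        simpa using this
  have e1 := abs_le.1 (gapa_est A f g)
  have e2 := abs_le.1 (gapa_est A f h)
  have e3 := abs_le.1 (gapa_est A f (h * h))
  have d1 := gapa_Dnn f g
  have d2 := gapa_Dnn f h
  have d3 := gapa_Dnn f (h * h)
  linarith [e1.1, e1.2, e2.1, e2.2, e3.1, e3.2]

theorem st_GAPA : ST_GAPA := by
  classical
  intro Γ _ A g h hp S _ hS
  have hne : S.Nonempty := by
    rw [Set.nonempty_iff_ne_empty]
    intro he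
    rw [he, Subgroup.closure_empty] at hS
    have hone : ∀ x : Γ, x = 1 := by
      intro x
      have : x ∈ (⊤ : Subgroup Γ) := trivial
      rw [← hS, Subgroup.mem_bot] at this
      exact this
    obtain ⟨hp1, hp2⟩ := hp
    have h1 : (1 : Γ) ∈ A := by
      rcases hp1 1 with h | h
      · exact h
      · rw [hone g, mul_one] at h; exact h
    have h2 := (hp2 1 h1).1
    rw [hone h, mul_one] at h2
    exact h2 h1
  obtain ⟨s0, hs0⟩ := hne
  obtain ⟨T1, C1, a1, b1, c1⟩ := gapa_word S hS g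
  obtain ⟨T2, C2, a2, b2, c2⟩ := gapa_word S hS h
  obtain ⟨T3, C3, a3, b3, c3⟩ := gapa_word S hS (h * h)
  set T : Finset Γ := insert s0 (T1 ∪ (T2 ∪ T3)) with hT
  refine ⟨T, (90 * (C1 + C2 + C3) + 1)⁻¹, ?_, by positivity, fun f => ?_⟩
  · rw [hT, Finset.coe_insert, Finset.coe_union, Finset.coe_union]
    exact Set.insert_subset hs0 (Set.union_subset a1 (Set.union_subset a2 a3))
  · obtain ⟨s, hsT, hmax⟩ := Finset.exists_max_image T (fun s => gapa_D f s)
      ⟨s0, Finset.mem_insert_self _ _⟩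
    refine ⟨s, hsT, ?_⟩
    have hM := gapa_Dnn f s
    have k1 := c1 f _ hM (fun t ht => hmax t (Finset.mem_insert_of_mem
      (Finset.mem_union_left _ ht)))
    have k2 := c2 f _ hM (fun t ht => hmax t (Finset.mem_insert_of_mem
      (Finset.mem_union_right _ (Finset.mem_union_left _ ht))))
    have k3 := c3 f _ hM (fun t ht => hmax t (Finset.mem_insert_of_mem
      (Finset.mem_union_right _ (Finset.mem_union_right _ ht))))
    have k4 := gapa_main A g h hp f
    have hpos : 0 < 90 * (C1 + C2 + C3) + 1 := by positivity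
    change (90 * (C1 + C2 + C3) + 1)⁻¹ * gapa_N f ≤ gapa_D f s
    rw [inv_mul_le_iff₀ hpos]
    nlinarith

end Pool.Agent.Helper12.GM
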